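import Pool.Agent.Helper69.MWF.Stmts

/-!
# MP_80e84b_lc (S14965): modules CEC, ZIP, ENUM
-/

set_option autoImplicit false

open Nat.Partrec (Code)

namespace Pool.Agent.Helper82.MWF

open Pool.Agent.Helper95.MW
open Pool.Agent.Helper69.MWF

theorem ce_inter {A B : Set ℕ} {w : ℕ → ℕ} (hA : CEIn A w) (hB : CEIn B w) :
    CEIn (A ∩ B) w := by
  obtain ⟨c, rfl⟩ := ceIn_iff.1 hA
  obtain ⟨c', rfl⟩ := ceIn_iff.1 hB
  have h := ceIn_search (α := (ℕ × ℕ) × (ℕ × ℕ))
    (fun v => (ev c v.2.1.1.2 (Nat.pair v.1 (ec (tk v.2.2 v.2.1.1.1)))) &&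
      (ev c' v.2.1.2.2 (Nat.pair v.1 (ec (tk v.2.2 v.2.1.2.1)))))
    (by
      refine Primrec.and.comp ?_ ?_
      · refine (primrec_ev c).comp ?_ ?_
        · exact Primrec.snd.comp (Primrec.fst.comp (Primrec.fst.comp Primrec.snd))
        · refine Primrec₂.natPair.comp Primrec.fst (primrec_ec.comp ?_)
          exact primrec_tk.comp (Primrec.snd.comp Primrec.snd)
            (Primrec.fst.comp (Primrec.fst.comp (Primrec.fst.comp Primrec.snd)))
      · refine (primrec_ev c').comp ?_ ?_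
        · exact Primrec.snd.comp (Primrec.snd.comp (Primrec.fst.comp Primrec.snd))
        · refine Primrec₂.natPair.comp Primrec.fst (primrec_ec.comp ?_)
          exact primrec_tk.comp (Primrec.snd.comp Primrec.snd)
            (Primrec.fst.comp (Primrec.snd.comp (Primrec.fst.comp Primrec.snd))))
    (fun T => T.1.1 + T.2.1)
    (Primrec.nat_add.comp (Primrec.fst.comp Primrec.fst) (Primrec.fst.comp Primrec.snd)) w
  have e : {n | ∃ T : (ℕ × ℕ) × (ℕ × ℕ),
      ((ev c T.1.2 (Nat.pair n (ec (tk (ini w (T.1.1 + T.2.1)) T.1.1)))) &&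
      (ev c' T.2.2 (Nat.pair n (ec (tk (ini w (T.1.1 + T.2.1)) T.2.1))))) = true} =
      WC c w ∩ WC c' w := by
    ext n
    constructor
    · rintro ⟨⟨⟨s, t⟩, ⟨s', t'⟩⟩, h1⟩
      simp only [Bool.and_eq_true] at h1
      rw [tk_ini (Nat.le_add_right _ _), tk_ini (Nat.le_add_left _ _)] at h1
      exact ⟨⟨s, (dom_iff_ev c _).2 ⟨t, h1.1⟩⟩, ⟨s', (dom_iff_ev c' _).2 ⟨t', h1.2⟩⟩⟩
    · rintro ⟨⟨s, hs⟩, ⟨s', hs'⟩⟩
      obtain ⟨t, ht⟩ := (dom_iff_ev c _).1 hs
      obtain ⟨t', ht'⟩ := (dom_iff_ev c' _).1 hs'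
      refine ⟨((s, t), (s', t')), ?_⟩
      simp only [Bool.and_eq_true]
      rw [tk_ini (Nat.le_add_right _ _), tk_ini (Nat.le_add_left _ _)]
      exact ⟨ht, ht'⟩
  rw [← e]
  exact h

theorem ce_union {A B : Set ℕ} {w : ℕ → ℕ} (hA : CEIn A w) (hB : CEIn B w) :
    CEIn (A ∪ B) w := by
  obtain ⟨c, rfl⟩ := ceIn_iff.1 hA
  obtain ⟨c', rfl⟩ := ceIn_iff.1 hB
  have h := ceIn_search (α := ℕ × ℕ)
    (fun v => (ev c v.2.1.2 (Nat.pair v.1 (ec v.2.2))) ||
      (ev c' v.2.1.2 (Nat.pair v.1 (ec v.2.2))))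
    (by
      refine Primrec.or.comp ?_ ?_
      · refine (primrec_ev c).comp ?_ ?_
        · exact Primrec.snd.comp (Primrec.fst.comp Primrec.snd)
        · exact Primrec₂.natPair.comp Primrec.fst
            (primrec_ec.comp (Primrec.snd.comp Primrec.snd))
      · refine (primrec_ev c').comp ?_ ?_
        · exact Primrec.snd.comp (Primrec.fst.comp Primrec.snd)
        · exact Primrec₂.natPair.comp Primrec.fst
            (primrec_ec.comp (Primrec.snd.comp Primrec.snd)))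
    (fun T => T.1) Primrec.fst w
  have e : {n | ∃ T : ℕ × ℕ, ((ev c T.2 (Nat.pair n (ec (ini w T.1)))) ||
      (ev c' T.2 (Nat.pair n (ec (ini w T.1))))) = true} = WC c w ∪ WC c' w := by
    ext n
    constructor
    · rintro ⟨⟨s, t⟩, h1⟩
      simp only [Bool.or_eq_true] at h1
      rcases h1 with h1 | h1
      · exact Or.inl ⟨s, (dom_iff_ev c _).2 ⟨t, h1⟩⟩
      · exact Or.inr ⟨s, (dom_iff_ev c' _).2 ⟨t, h1⟩⟩
    · rintro (⟨s, hs⟩ | ⟨s, hs⟩)
      · obtain ⟨t, ht⟩ := (dom_iff_ev c _).1 hs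
        exact ⟨(s, t), by simp only [Bool.or_eq_true]; exact Or.inl ht⟩
      · obtain ⟨t, ht⟩ := (dom_iff_ev c' _).1 hs
        exact ⟨(s, t), by simp only [Bool.or_eq_true]; exact Or.inr ht⟩
  rw [← e]
  exact h

theorem ce_preimage {A : Set ℕ} {w f : ℕ → ℕ} (hA : CEIn A w) (hf : LE f w) :
    CEIn {n | f n ∈ A} w := by
  obtain ⟨p, hp, hA⟩ := hA
  have hp' := RecursiveIn.iff_nat.1 hp
  have hf' := le_iff.1 hf
  have h := Nat.RecursiveIn.comp hp' hf'
  refine ⟨_, RecursiveIn.iff_nat.2 h, fun n => ?_⟩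
  change f n ∈ A ↔ ((Part.some (f n)).bind p).Dom
  rw [Part.bind_some]
  exact hA (f n)

theorem ce_proj {A : Set ℕ} {w : ℕ → ℕ} (hA : CEIn A w) :
    CEIn {n | ∃ k, Nat.pair n k ∈ A} w := by
  obtain ⟨c, rfl⟩ := ceIn_iff.1 hA
  have h := ceIn_search (α := ℕ × ℕ × ℕ)
    (fun v => ev c v.2.1.2.2 (Nat.pair (Nat.pair v.1 v.2.1.1) (ec v.2.2)))
    (by
      refine (primrec_ev c).comp ?_ ?_
      · exact Primrec.snd.comp (Primrec.snd.comp (Primrec.fst.comp Primrec.snd))
      · refine Primrec₂.natPair.comp (Primrec₂.natPair.comp Primrec.fst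
          (Primrec.fst.comp (Primrec.fst.comp Primrec.snd)))
          (primrec_ec.comp (Primrec.snd.comp Primrec.snd)))
    (fun T => T.2.1) (Primrec.fst.comp Primrec.snd) w
  have e : {n | ∃ T : ℕ × ℕ × ℕ,
      ev c T.2.2 (Nat.pair (Nat.pair n T.1) (ec (ini w T.2.1))) = true} =
      {n | ∃ k, Nat.pair n k ∈ WC c w} := by
    ext n
    constructor
    · rintro ⟨⟨k, s, t⟩, h1⟩
      exact ⟨k, s, (dom_iff_ev c _).2 ⟨t, h1⟩⟩
    · rintro ⟨k, s, hs⟩
      obtain ⟨t, ht⟩ := (dom_iff_ev c _).1 hs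
      exact ⟨(k, s, t), ht⟩
  rw [← e]
  exact h

theorem ce_prim {P : ℕ → Prop} (w : ℕ → ℕ) (hP : PrimrecPred P) : CEIn {n | P n} w := by
  obtain ⟨hd, hP⟩ := hP
  have h := ceIn_search (α := ℕ) (fun v => decide (P v.1)) (hP.comp Primrec.fst)
    (fun _ => 0) (Primrec.const 0) w
  have e : {n | ∃ T : ℕ, (fun v : ℕ × ℕ × List ℕ => decide (P v.1)) (n, T, ini w 0) = true} =
      {n | P n} := by
    ext n
    simp
  rw [← e]
  exact h

theorem ce_graph {f w : ℕ → ℕ} (hf : LE f w) : CEIn {m | m.unpair.2 = f m.unpair.1} w := by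
  refine CEIn.mono ?_ hf
  have h := ceIn_search (α := ℕ)
    (fun v => decide (v.2.2[v.1.unpair.1]? = some v.1.unpair.2))
    (by
      refine (PrimrecRel.decide Primrec.eq).comp ?_ ?_
      · exact Primrec.list_getElem?.comp (Primrec.snd.comp Primrec.snd)
          (Primrec.fst.comp (Primrec.unpair.comp Primrec.fst))
      · exact Primrec.option_some.comp (Primrec.snd.comp (Primrec.unpair.comp Primrec.fst)))
    id Primrec.id f
  have e : {m : ℕ | ∃ T : ℕ, decide ((ini f (id T))[m.unpair.1]? = some m.unpair.2) = true} =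
      {m : ℕ | m.unpair.2 = f m.unpair.1} := by
    ext m
    constructor
    · rintro ⟨s, h1⟩
      exact (ini_get?_eq (of_decide_eq_true h1)).symm
    · intro h1
      refine ⟨m.unpair.1 + 1, decide_eq_true ?_⟩
      rw [id, ini_get? (Nat.lt_succ_self _), ← (show m.unpair.2 = f m.unpair.1 from h1)]
  rw [← e]
  exact h

theorem ce_range {f w : ℕ → ℕ} (hf : LE f w) : CEIn (Set.range f) w := by
  refine CEIn.mono ?_ hf
  have h := ceIn_search (α := ℕ)
    (fun v => decide (v.2.2[v.2.1]? = some v.1))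
    (by
      refine (PrimrecRel.decide Primrec.eq).comp ?_ ?_
      · exact Primrec.list_getElem?.comp (Primrec.snd.comp Primrec.snd)
          (Primrec.fst.comp Primrec.snd)
      · exact Primrec.option_some.comp Primrec.fst)
    (fun T => T + 1) (Primrec.succ.comp Primrec.id) f
  have e : {n | ∃ T : ℕ, decide ((ini f (T + 1))[T]? = some n) = true} = Set.range f := by
    ext n
    constructor
    · rintro ⟨s, h1⟩
      exact ⟨s, ini_get?_eq (of_decide_eq_true h1)⟩
    · rintro ⟨s, rfl⟩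
      refine ⟨s, decide_eq_true ?_⟩
      rw [ini_get? (Nat.lt_succ_self _)]
  rw [← e]
  exact h

theorem ce_dom (c : Code) (w : ℕ → ℕ) : CEIn {m | (c.eval m).Dom} w := by
  have h := ceIn_search (α := ℕ) (fun v => ev c v.2.1 v.1)
    ((primrec_ev c).comp (Primrec.fst.comp Primrec.snd) Primrec.fst)
    (fun _ => 0) (Primrec.const 0) w
  have e : {n | ∃ T : ℕ, ev c T n = true} = {m | (c.eval m).Dom} := by
    ext m
    exact (dom_iff_ev c m).symm
  rw [← e]
  exact h

theorem st_CEC : ST_CEC :=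
  ⟨fun _ _ _ => ce_inter, fun _ _ _ => ce_union, fun _ _ _ => ce_preimage, fun _ _ => ce_proj,
    fun _ w => ce_prim w, fun _ _ => ce_graph, fun _ _ => ce_range, ce_dom⟩

/-- primitive recursive functions are computable from everything -/
theorem le_prim {f : ℕ → ℕ} (w : ℕ → ℕ) (hf : Primrec f) : LE f w :=
  le_iff.2 (rt_prim (Primrec.nat_iff.1 hf))

theorem st_ZIP : ST_ZIP := by
  intro S T w hS hT
  have hf1 : Primrec (fun x : ℕ => x.unpair.2.unpair.1) :=
    Primrec.fst.comp (Primrec.unpair.comp (Primrec.snd.comp Primrec.unpair))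
  have hf2 : Primrec (fun x : ℕ => x.unpair.2.unpair.2) :=
    Primrec.snd.comp (Primrec.unpair.comp (Primrec.snd.comp Primrec.unpair))
  have hd1 : Primrec (fun x : ℕ => dl x.unpair.2.unpair.1) := primrec_dl.comp hf1
  have hd2 : Primrec (fun x : ℕ => dl x.unpair.2.unpair.2) := primrec_dl.comp hf2
  have h1 := ce_preimage hS (le_prim w (f := fun x => ec (dl x.unpair.2.unpair.1))
    (primrec_ec.comp hd1))
  have h2 := ce_preimage hT (le_prim w (f := fun x => ec (dl x.unpair.2.unpair.2))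
    (primrec_ec.comp hd2))
  have h3 : CEIn {x : ℕ | (dl x.unpair.2.unpair.1).length = (dl x.unpair.2.unpair.2).length} w :=
    ce_prim w (Primrec.eq.comp (Primrec.list_length.comp hd1) (Primrec.list_length.comp hd2))
  have h4 : CEIn {x : ℕ | x.unpair.1 = ec (zp (dl x.unpair.2.unpair.1) (dl x.unpair.2.unpair.2)
      (dl x.unpair.2.unpair.1).length)} w := by
    refine ce_prim w (Primrec.eq.comp (Primrec.fst.comp Primrec.unpair) (primrec_ec.comp ?_))
    exact primrec_zp.comp (Primrec.pair (Primrec.pair hd1 hd2) (Primrec.list_length.comp hd1))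
  have h5 := ce_proj (ce_inter (ce_inter h1 h2) (ce_inter h3 h4))
  have e : {n | ∃ k, Nat.pair n k ∈ ({n | ec (dl n.unpair.2.unpair.1) ∈ S} ∩
      {n | ec (dl n.unpair.2.unpair.2) ∈ T}) ∩
      ({x : ℕ | (dl x.unpair.2.unpair.1).length = (dl x.unpair.2.unpair.2).length} ∩
      {x : ℕ | x.unpair.1 = ec (zp (dl x.unpair.2.unpair.1) (dl x.unpair.2.unpair.2)
      (dl x.unpair.2.unpair.1).length)})} =
      {m | ∃ p q : List ℕ, ec p ∈ S ∧ ec q ∈ T ∧ p.length = q.length ∧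
        m = ec (zp p q p.length)} := by
    ext m
    constructor
    · rintro ⟨k, ⟨h6, h7⟩, h8, h9⟩
      simp only [Set.mem_ofPred_eq, Nat.unpair_pair] at h6 h7 h8 h9
      exact ⟨_, _, h6, h7, h8, h9⟩
    · rintro ⟨p, q, h6, h7, h8, h9⟩
      refine ⟨Nat.pair (ec p) (ec q), ⟨?_, ?_⟩, ?_, ?_⟩
      · simpa only [Set.mem_ofPred_eq, Nat.unpair_pair, dl_ec] using h6
      · simpa only [Set.mem_ofPred_eq, Nat.unpair_pair, dl_ec] using h7
      · simpa only [Set.mem_ofPred_eq, Nat.unpair_pair, dl_ec] using h8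
      · simpa only [Set.mem_ofPred_eq, Nat.unpair_pair, dl_ec] using h9
  rw [← e]
  exact h5

theorem st_ENUM : ST_ENUM := by
  rintro A w ⟨a, ha⟩ hA
  obtain ⟨c, rfl⟩ := ceIn_iff.1 hA
  -- `m` codes `(n, s, t)`
  set G : ℕ → ℕ := fun v => cond (ev c v.unpair.1.unpair.2.unpair.2
    (Nat.pair v.unpair.1.unpair.1 v.unpair.2)) v.unpair.1.unpair.1 a with hGdef
  have hG : Nat.Primrec G := by
    refine Primrec.nat_iff.1 ?_
    have hv1 : Primrec (fun v : ℕ => v.unpair.1) := Primrec.fst.comp Primrec.unpair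
    refine Primrec.cond ?_ (Primrec.fst.comp (Primrec.unpair.comp hv1)) (Primrec.const a)
    refine (primrec_ev c).comp ?_ ?_
    · exact Primrec.snd.comp (Primrec.unpair.comp (Primrec.snd.comp (Primrec.unpair.comp hv1)))
    · exact Primrec₂.natPair.comp (Primrec.fst.comp (Primrec.unpair.comp hv1))
        (Primrec.snd.comp Primrec.unpair)
  have h1 : RT w (fun m => G (Nat.pair m (ec (ini w m.unpair.2.unpair.1)))) := by
    refine rt_comp (rt_prim hG) (rt_pair (rt_prim (Primrec.nat_iff.1 Primrec.id)) ?_)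
    refine rt_comp (rt_ini w) (rt_comp rt_left rt_right)
  refine ⟨_, le_iff.2 h1, ?_⟩
  ext n
  constructor
  · rintro ⟨m, rfl⟩
    simp only [hGdef, Nat.unpair_pair]
    cases h : ev c m.unpair.2.unpair.2 (Nat.pair m.unpair.1 (ec (ini w m.unpair.2.unpair.1))) with
    | false => exact ha
    | true => exact ⟨_, (dom_iff_ev c _).2 ⟨_, h⟩⟩
  · rintro ⟨s, hs⟩
    obtain ⟨t, ht⟩ := (dom_iff_ev c _).1 hs
    refine ⟨Nat.pair n (Nat.pair s t), ?_⟩
    simp only [hGdef, Nat.unpair_pair, ht, cond_true]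

end Pool.Agent.Helper82.MWF
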